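import Pool.Agent.H978R3.SL.Stmts

set_option autoImplicit false

open Set Filter Topology Metric Bornology

namespace Pool.Agent.H401R3.SLPL1

open Pool.Agent.H978R3.SL

theorem chain_step {c : ℕ → ℂ}
    (hc : ∀ j, ‖c (j + 1) - c j - 2 * (Real.pi : ℂ) * Complex.I‖ ≤ 0.03) (j : ℕ) :
    6.25 ≤ (c (j + 1)).im - (c j).im ∧ (c (j + 1)).im - (c j).im ≤ 6.33 ∧
      |(c (j + 1)).re - (c j).re| ≤ 0.03 := by
  have h := hc j
  have h1 := (Complex.abs_im_le_norm (c (j + 1) - c j - 2 * (Real.pi : ℂ) * Complex.I)).trans h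
  have h2 := (Complex.abs_re_le_norm (c (j + 1) - c j - 2 * (Real.pi : ℂ) * Complex.I)).trans h
  have e1 : (c (j + 1) - c j - 2 * (Real.pi : ℂ) * Complex.I).im =
      (c (j + 1)).im - (c j).im - 2 * Real.pi := by simp
  have e2 : (c (j + 1) - c j - 2 * (Real.pi : ℂ) * Complex.I).re =
      (c (j + 1)).re - (c j).re := by simp
  rw [e1] at h1
  rw [e2] at h2
  have p1 := Real.pi_gt_d2
  have p2 := Real.pi_lt_d2
  rw [abs_le] at h1
  refine ⟨by linarith [h1.1], by linarith [h1.2], h2⟩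

theorem chain_le {c : ℕ → ℂ}
    (hc : ∀ j, ‖c (j + 1) - c j - 2 * (Real.pi : ℂ) * Complex.I‖ ≤ 0.03) (j d : ℕ) :
    6.25 * (d : ℝ) ≤ (c (j + d)).im - (c j).im ∧
      |(c (j + d)).re - (c j).re| ≤ 0.03 * (d : ℝ) := by
  induction d with
  | zero => simp
  | succ d ih =>
    obtain ⟨h1, h2, h3⟩ := chain_step hc (j + d)
    rw [← add_assoc]
    push_cast
    refine ⟨by linarith [ih.1], ?_⟩
    have := abs_add_le ((c (j + d + 1)).re - (c (j + d)).re) ((c (j + d)).re - (c j).re)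
    rw [sub_add_sub_cancel] at this
    linarith [ih.2]

/-- two indices whose imaginary parts are close are adjacent -/
theorem chain_close {c : ℕ → ℂ}
    (hc : ∀ j, ‖c (j + 1) - c j - 2 * (Real.pi : ℂ) * Complex.I‖ ≤ 0.03) (j k : ℕ)
    (h : |(c j).im - (c k).im| < 8) : |(c j).re - (c k).re| ≤ 0.03 := by
  rcases le_total j k with hjk | hjk
  · obtain ⟨d, rfl⟩ := Nat.exists_eq_add_of_le hjk
    obtain ⟨h1, h2⟩ := chain_le hc j d
    rw [abs_sub_comm] at h ⊢
    have h3 := (abs_lt.1 h).2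
    have hd : (d : ℝ) < 2 := by linarith
    have hd' : d < 2 := by exact_mod_cast hd
    have hd'' : (d : ℝ) ≤ 1 := by exact_mod_cast Nat.lt_succ_iff.1 hd'
    linarith
  · obtain ⟨d, rfl⟩ := Nat.exists_eq_add_of_le hjk
    obtain ⟨h1, h2⟩ := chain_le hc k d
    have h3 := (abs_lt.1 h).2
    have hd : (d : ℝ) < 2 := by linarith
    have hd' : d < 2 := by exact_mod_cast hd
    have hd'' : (d : ℝ) ≤ 1 := by exact_mod_cast Nat.lt_succ_iff.1 hd'
    linarith

theorem chain_cover {c : ℕ → ℂ}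
    (hc : ∀ j, ‖c (j + 1) - c j - 2 * (Real.pi : ℂ) * Complex.I‖ ≤ 0.03) (y : ℝ)
    (h : (c 0).im ≤ y) : ∃ j, |y - (c j).im| < 4 := by
  classical
  have hex : ∃ j, y < (c j).im := by
    obtain ⟨d, hd⟩ := exists_nat_gt ((y - (c 0).im) / 6.25)
    refine ⟨d, ?_⟩
    have h1 := (chain_le hc 0 d).1
    rw [zero_add] at h1
    rw [div_lt_iff₀ (by norm_num)] at hd
    linarith
  have hj := Nat.find_spec hex
  set j := Nat.find hex with hjdef
  rcases Nat.eq_zero_or_pos j with h0 | hpos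
  · rw [h0] at hj; linarith
  · obtain ⟨i, hi⟩ := Nat.exists_eq_succ_of_ne_zero hpos.ne'
    have hi2 : ¬ y < (c i).im := Nat.find_min hex (by rw [← hjdef, hi]; exact Nat.lt_succ_self i)
    rw [hi] at hj
    obtain ⟨h1, h2, h3⟩ := chain_step hc i
    rw [Nat.succ_eq_add_one] at hj
    push Not at hi2
    by_cases h4 : y - (c i).im < 4
    · exact ⟨i, by rw [abs_lt]; constructor <;> linarith⟩
    · refine ⟨i + 1, ?_⟩
      rw [abs_lt]
      constructor <;> linarith

/-- the part of the plane on one side of the chain -/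
def Sd (c : ℕ → ℂ) (τ : ℝ) : Set ℂ := {w | ∃ j, |w.im - (c j).im| < 4 ∧ τ * w.re < τ * (c j).re}

theorem isOpen_Sd (c : ℕ → ℂ) (τ : ℝ) : IsOpen (Sd c τ) := by
  have : Sd c τ = ⋃ j, ({w : ℂ | |w.im - (c j).im| < 4} ∩ {w : ℂ | τ * w.re < τ * (c j).re}) := by
    ext w
    simp [Sd]
  rw [this]
  apply isOpen_iUnion
  intro j
  apply IsOpen.inter
  · exact isOpen_lt (by fun_prop) continuous_const
  · exact isOpen_lt (by fun_prop) continuous_const

theorem side_disj {D : Set ℂ} {c : ℕ → ℂ}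
    (hc : ∀ j, ‖c (j + 1) - c j - 2 * (Real.pi : ℂ) * Complex.I‖ ≤ 0.03)
    (hD : ∀ j, ∀ z ∈ D, |z.im - (c j).im| < 4 → 1 ≤ |z.re - (c j).re|)
    {τ : ℝ} (hτ : τ = 1 ∨ τ = -1) {v : ℂ} (hv : v ∈ D) (h1 : v ∈ Sd c τ) (h2 : v ∈ Sd c (-τ)) :
    False := by
  obtain ⟨j, hj1, hj2⟩ := h1
  obtain ⟨k, hk1, hk2⟩ := h2
  have a1 := hD j v hv hj1
  have a2 := hD k v hv hk1
  have hjk : |(c j).im - (c k).im| < 8 := by
    have := abs_sub_le (c j).im v.im (c k).im
    rw [abs_sub_comm (c j).im v.im] at this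
    linarith
  have a3 := chain_close hc j k hjk
  rw [abs_le] at a3
  rcases hτ with h | h
  · subst h
    rw [abs_of_neg (by linarith)] at a1
    rw [abs_of_pos (by linarith)] at a2
    linarith
  · subst h
    rw [abs_of_pos (by linarith)] at a1
    rw [abs_of_neg (by linarith)] at a2
    linarith

theorem side_cover {D : Set ℂ} {c : ℕ → ℂ}
    (hc : ∀ j, ‖c (j + 1) - c j - 2 * (Real.pi : ℂ) * Complex.I‖ ≤ 0.03)
    (hD : ∀ j, ∀ z ∈ D, |z.im - (c j).im| < 4 → 1 ≤ |z.re - (c j).re|)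
    {τ : ℝ} (hτ : τ = 1 ∨ τ = -1) {v : ℂ} (hv : v ∈ D) (h0 : (c 0).im ≤ v.im) :
    v ∈ Sd c τ ∨ v ∈ Sd c (-τ) := by
  obtain ⟨j, hj⟩ := chain_cover hc v.im h0
  have a1 := hD j v hv hj
  have hne : v.re - (c j).re ≠ 0 := by
    intro h; rw [h] at a1; norm_num at a1
  rcases lt_or_gt_of_ne hne with h | h
  · rcases hτ with h' | h'
    · left; exact ⟨j, hj, by rw [h']; linarith⟩
    · right; exact ⟨j, hj, by rw [h']; linarith⟩
  · rcases hτ with h' | h'
    · right; exact ⟨j, hj, by rw [h']; linarith⟩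
    · left; exact ⟨j, hj, by rw [h']; linarith⟩

theorem taskPL1 : TaskPL1 := by
  intro D φ θ ε R0 c hDo hε hεθ hφ hb hc hD
  set K : ℝ := 2 * |R0| + 100 * (|(c 0).re| + 1 + |(c 0).im|) with hK
  have hK0 : 0 ≤ |R0| := abs_nonneg _
  have hK1 : 0 ≤ |(c 0).re| := abs_nonneg _
  have hK2 : 0 ≤ |(c 0).im| := abs_nonneg _
  refine ⟨2 * K, ?_⟩
  intro z hz hzn hzr
  have him0 : 0 ≤ z.im := by
    have := abs_nonneg z.re
    linarith
  have hzim : K ≤ z.im := by
    have := Complex.norm_le_abs_re_add_abs_im z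
    rw [abs_of_nonneg him0] at this
    linarith
  set r : ℝ := z.im with hr
  have hr0 : 0 < r := by
    have : 0 < K := by positivity
    linarith
  -- facts on the ball
  have hball : ∀ w : ℂ, w ∈ closedBall ((r : ℂ) * Complex.I) (r / 2) →
      r / 2 ≤ w.im ∧ w.im ≤ 1.5 * r := by
    intro w hw
    rw [mem_closedBall, dist_eq_norm] at hw
    have h1 := (Complex.abs_im_le_norm _).trans hw
    have e : (w - (r : ℂ) * Complex.I).im = w.im - r := by simp
    rw [e, abs_le] at h1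
    constructor <;> linarith [h1.1, h1.2]
  have hballR : ∀ w : ℂ, w ∈ closedBall ((r : ℂ) * Complex.I) (r / 2) → R0 ≤ ‖w‖ := by
    intro w hw
    have h1 := (hball w hw).1
    have h2 := Complex.abs_im_le_norm w
    have h3 := le_abs_self w.im
    have h4 := le_abs_self R0
    linarith
  have hmain : ∀ τ : ℝ, (τ = 1 ∨ τ = -1) → z ∈ Sd c τ →
      ‖φ z‖ ≤ ε * Real.exp (0.54 * Real.log (θ / ε)) := by
    intro τ hτ hzS
    have hUo : IsOpen (D ∩ Sd c τ ∩ ball ((r : ℂ) * Complex.I) (r / 2)) :=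
      (hDo.inter (isOpen_Sd c τ)).inter isOpen_ball
    set U : Set ℂ := D ∩ Sd c τ ∩ ball ((r : ℂ) * Complex.I) (r / 2) with hU
    have hUD : U ⊆ D := fun w hw => hw.1.1
    have hUB : U ⊆ ball ((r : ℂ) * Complex.I) (r / 2) := fun w hw => hw.2
    have hcB : closure U ⊆ closedBall ((r : ℂ) * Complex.I) (r / 2) :=
      (closure_mono hUB).trans closure_ball_subset_closedBall
    have hcD : closure U ⊆ closure D := closure_mono hUD
    refine pl_local (U := U) (F := frontier D) hε hεθ hr0 hτ ?_ ?_ hUB ?_ ?_ z ?_ ?_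
    · intro w hw
      exact hφ w (hcD hw) (hballR w (hcB hw))
    · intro w hw hw2
      exact hb w hw (hballR w (hcB hw2))
    · intro w hw
      obtain ⟨j, hj1, hj2⟩ := hw.1.2
      have hwb := hball w (ball_subset_closedBall hw.2)
      obtain ⟨h1, h2⟩ := chain_le hc 0 j
      rw [zero_add] at h1 h2
      rw [abs_lt] at hj1
      rw [abs_le] at h2
      have h3 := le_abs_self (c 0).re
      have h4 := neg_abs_le (c 0).re
      have h5 := neg_abs_le (c 0).im
      have h6 := le_abs_self (c 0).im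
      rcases hτ with h | h
      · rw [h] at hj2 ⊢
        nlinarith [h2.1, h2.2, hj1.1, hj1.2]
      · rw [h] at hj2 ⊢
        nlinarith [h2.1, h2.2, hj1.1, hj1.2]
    · intro w hw
      by_cases hws : w ∈ sphere ((r : ℂ) * Complex.I) (r / 2)
      · exact Or.inr hws
      · left
        have hwc : w ∈ closure U := frontier_subset_closure hw
        have hwU : w ∉ U := by
          rw [hUo.frontier_eq] at hw
          exact hw.2
        have hwB : w ∈ ball ((r : ℂ) * Complex.I) (r / 2) := by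
          have h1 := hcB hwc
          rw [mem_closedBall] at h1
          rw [mem_sphere] at hws
          exact mem_ball.2 (lt_of_le_of_ne h1 hws)
        rw [hDo.frontier_eq]
        refine ⟨hcD hwc, ?_⟩
        intro hwD
        have h0 : (c 0).im ≤ w.im := by
          have h1 := (hball w (ball_subset_closedBall hwB)).1
          have h6 := le_abs_self (c 0).im
          linarith
        rcases side_cover hc hD hτ hwD h0 with h | h
        · exact hwU ⟨⟨hwD, h⟩, hwB⟩
        · obtain ⟨v, hv1, hv2⟩ := mem_closure_iff.1 hwc _ (isOpen_Sd c (-τ)) h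
          exact side_disj hc hD hτ hv2.1.1 hv2.1.2 hv1
    · refine ⟨⟨hz, hzS⟩, ?_⟩
      rw [mem_ball, dist_eq_norm]
      have e : z - (r : ℂ) * Complex.I = (z.re : ℂ) := by
        apply Complex.ext <;> simp [hr]
      rw [e, Complex.norm_real, Real.norm_eq_abs]
      linarith
    · have e : z - (r : ℂ) * Complex.I = (z.re : ℂ) := by
        apply Complex.ext <;> simp [hr]
      rw [e, Complex.norm_real, Real.norm_eq_abs]
      exact hzr
  have h0 : (c 0).im ≤ z.im := by
    have h6 := le_abs_self (c 0).im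
    linarith
  rcases side_cover hc hD (Or.inl rfl : (1 : ℝ) = 1 ∨ (1 : ℝ) = -1) hz h0 with h | h
  · exact hmain 1 (Or.inl rfl) h
  · exact hmain (-1) (Or.inr rfl) h

end Pool.Agent.H401R3.SLPL1
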